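import Pool.Agent.Helper31.MHS.Goals2
import Pool.Agent.Helper60.MH.GUA

/-!
# Packet MHS-GUW: the parameters which are replaced by trivial ones if they are not admissible
-/

namespace Pool.Agent.Helper48.MHS

open Pool.Agent.Helper65.LinSpace Pool.Agent.Helper78.Mpc Pool.Agent.Helper28.Ram Finset Filter
open Pool.Agent.Helper65.OH (kap)
open Pool.Agent.Helper28.Long (ZL)
open Pool.Agent.Helper65.RT (qT CT LSM Sim Par)
open Pool.Agent.Helper94.RT (qT_pos qT_le qT_ll)
open Pool.Agent.Helper20.MH (Prm Sys)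
open Pool.Agent.Helper60.MH (lt01_ne le01_ne key key2 kap_le lam_le)
open Pool.Agent.Helper31.MHS

theorem gw_ne {n D K S b c R E G d Z : ℕ} (h : gw n D K S b c R E G d Z ≠ 0) :
    0 < c ∧ 0 < E ∧ 0 < G ∧ 0 < K ∧ 0 < D ∧ S + Z ≤ ZL n ∧ 1 + R ≤ G * E ∧
    capPow (3 * c) D (4 * (n + 1)) ≤ 4 * (n + 1) ∧
    K * capPow (3 * c) D (4 * (n + 1)) ≤ (G * E - (1 + R)) * (c * K) ∧
    G * ((S + 1 + (b + 1) * (K * D) + kap n + c * (K * (S + 2))) * E) +
      E * (S + 1 + (b + 1) * (K * D) + kap n +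
        K * capPow (3 * c) D (4 * (n + 1)) * (S + 2)) ≤ 4 * qT n ∧
    d * (G + 2) ≤ 4 * qT n ∧ (d + 1) * ((b + 1) * (K * D) + 1) ≤ 4 * qT n ∧
    (d + 1) * (((b + 1) * (K * D) + 1) * E) ≤ 4 * (n + 1) := by
  unfold gw at h
  simpa only [mul_ne_zero_iff, lt01_ne, le01_ne] using h

/-- The power of `2` in the bound for the number of steps. -/
theorem cube_lt (n : ℕ) : 64 * (n + 1) ^ 3 < 2 ^ kap n := by
  have h1 : n + 1 ≤ 2 ^ ll n := by
    have := lt_two_pow_ll n
    omega
  have h2 := ll_pos n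
  calc 64 * (n + 1) ^ 3 ≤ 64 * (2 ^ ll n) ^ 3 := by gcongr
    _ = 2 ^ (3 * ll n + 6) := by
        rw [← pow_mul, pow_add, mul_comm (ll n) 3]
        ring
    _ < 2 ^ kap n := by
        unfold Pool.Agent.Helper65.OH.kap
        exact Nat.pow_lt_pow_right (by norm_num) (by omega)

theorem guw : GUW_stmt := by
  intro eA eN eW st x y D K tp S b c R E G d Z eD eX
  generalize hg : gw (Nat.log 2 x) D K S b c R E G d Z = g
  have hkap := kap_le (Nat.log 2 x)
  have hq := qT_pos (Nat.log 2 x)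
  have hqn := qT_le (Nat.log 2 x)
  by_cases h0 : g = 0
  · have hP : pw g eA eN eW st x y D K tp S b c R E G d Z eD eX =
        ⟨⟨eA, eN, eW, st, x, y, LW (Nat.log 2 x), 2 ^ (2 * ll (Nat.log 2 x)), CR x, 0, 0, tp, 0,
          1, 1, 0⟩, 0, eD, eX, 0, 1, 1, 0⟩ := by
      rw [h0]
      rfl
    rw [hP, h0]
    refine ⟨fun c' τ X => ⟨?_, ?_, ?_, ?_⟩, ⟨Nat.one_pos, Nat.one_pos, Nat.one_pos, Nat.one_pos⟩,
      ?_, ?_, ⟨by positivity, lam_le x⟩, ⟨?_, ?_, ?_⟩, ?_, ?_, ⟨?_, ?_, ?_⟩, ?_, ?_, ?_, ?_, ?_,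
      fun h => absurd rfl h⟩
    · simp [WP.mach, WP.sys, WP.sg, Sys.mach, Sys.a, Sys.b, Pool.Agent.Helper65.RT.Mach.wn,
        Pool.Agent.Helper65.RT.Mach.wv]
      omega
    · simp [WP.mach, Sys.mach]
    · simp [WP.mach, Sys.mach, WP.sys]
      omega
    · simp [WP.mach, Sys.mach, WP.sys]
      omega
    · simp
    · simp
    · simpa using key2 x 1 (by omega)
    · exact key x 1 (by omega)
    · simpa using key2 x 1 (by omega)
    · exact key x 2 (by omega)
    · exact key x 1 (by omega)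
    · apply key
      simp [Prm.sys, Sys.a]
      omega
    · apply key
      simp [Prm.sys, Sys.b]
      omega
    · apply key
      simp [Prm.sys]
      omega
    · apply key
      simp [WP.sys, WP.sg, Sys.a]
      omega
    · apply key
      simp [WP.sys, WP.sg, Sys.b]
      omega
    · apply key
      simp [WP.sys]
      omega
    · simp
    · simp [WP.N]
  · obtain ⟨h1, h2, h3, h4, h5, h6, h7, h8, h9, h10, h11, h12, h13⟩ := gw_ne (hg ▸ h0)
    have hP : pw g eA eN eW st x y D K tp S b c R E G d Z eD eX =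
        ⟨⟨eA, eN, eW, st, x, y, LW (Nat.log 2 x), 2 ^ (2 * ll (Nat.log 2 x)), CR x, D, K, tp, S,
          b + 1, c, R⟩, Z, eD, eX, kap (Nat.log 2 x), E, G, d⟩ := by
      unfold pw
      simp only [Pool.Agent.Helper60.MH.ifz_ne h0]
    rw [hP]
    have hcap : capPow (3 * c) D (4 * (Nat.log 2 x + 1)) = (3 * c) ^ D := by
      unfold capPow at h8 ⊢
      omega
    rw [hcap] at h8 h9 h10
    have key' := key x
    have key2' := key2 x
    have hlam := lam_le x
    have hcube := cube_lt (Nat.log 2 x)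
    have hZL := Pool.Agent.Helper28.Long.ZL_le (Nat.log 2 x)
    have hβ : 0 < 2 ^ (2 * ll (Nat.log 2 x)) := by positivity
    have hGE : 1 ≤ G * E := Nat.mul_pos h3 h2
    generalize LW (Nat.log 2 x) = Λ at *
    generalize 2 ^ (2 * ll (Nat.log 2 x)) = β at *
    generalize kap (Nat.log 2 x) = κ at *
    -- the numbers
    have hd1 : 1 * ((b + 1) * (K * D) + 1) ≤ (d + 1) * ((b + 1) * (K * D) + 1) :=
      Nat.mul_le_mul_right _ (by omega)
    have hKD : D ≤ K * D := Nat.le_mul_of_pos_left _ h4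
    have hbD : (b + 1) * D ≤ (b + 1) * (K * D) := Nat.mul_le_mul_left _ hKD
    have hb1 : b + 1 ≤ (b + 1) * D := Nat.le_mul_of_pos_right _ h5
    have ha : S + 1 + (b + 1) * (K * D) + κ + c * (K * (S + 2)) ≤
        G * ((S + 1 + (b + 1) * (K * D) + κ + c * (K * (S + 2))) * E) := by
      calc S + 1 + (b + 1) * (K * D) + κ + c * (K * (S + 2)) =
          (S + 1 + (b + 1) * (K * D) + κ + c * (K * (S + 2))) * 1 := by ring
        _ ≤ (S + 1 + (b + 1) * (K * D) + κ + c * (K * (S + 2))) * (G * E) :=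
            Nat.mul_le_mul_left _ hGE
        _ = _ := by ring
    have hb : S + 1 + (b + 1) * (K * D) + κ + K * (3 * c) ^ D * (S + 2) ≤
        E * (S + 1 + (b + 1) * (K * D) + κ + K * (3 * c) ^ D * (S + 2)) :=
      Nat.le_mul_of_pos_left _ h2
    have haR : (S + 1 + (b + 1) * (K * D) + κ + c * (K * (S + 2))) * (R + 2) ≤
        8 * qT (Nat.log 2 x) := by
      have h14 : (S + 1 + (b + 1) * (K * D) + κ + c * (K * (S + 2))) * (R + 2) ≤
          2 * (G * ((S + 1 + (b + 1) * (K * D) + κ + c * (K * (S + 2))) * E)) := by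
        calc (S + 1 + (b + 1) * (K * D) + κ + c * (K * (S + 2))) * (R + 2) ≤
            (S + 1 + (b + 1) * (K * D) + κ + c * (K * (S + 2))) * (2 * (G * E)) :=
              Nat.mul_le_mul_left _ (by omega)
          _ = _ := by ring
      omega
    refine ⟨fun c' τ X => ⟨h10, h11, h12, h13⟩, ⟨Nat.succ_pos b, h1, h2, h3⟩, h7, h9,
      ⟨hβ, hlam⟩, ⟨?_, ?_, ?_⟩, ?_, ?_, ⟨?_, ?_, ?_⟩, ?_, ?_, ?_, h6, ?_,
      fun _ => ⟨rfl, rfl, rfl, rfl, rfl, rfl, rfl, rfl, rfl, rfl⟩⟩
    · exact key2' _ (by show (3 * c) ^ D ≤ _; omega)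
    · exact key' _ (by show b + 1 ≤ _; omega)
    · rw [← pow_mul]
      exact key' _ (by show (b + 1) * D ≤ _; omega)
    · exact key' _ (by show Z + 2 ≤ _; omega)
    · apply key'
      show (2 * (b + 1) + 3) * D + 1 ≤ _
      have h14 : (2 * (b + 1) + 3) * D ≤ 5 * ((b + 1) * D) := by
        calc (2 * (b + 1) + 3) * D ≤ (5 * (b + 1)) * D := Nat.mul_le_mul_right _ (by omega)
          _ = _ := by ring
      omega
    · apply key'
      show (S + 1 + (b + 1) * (K * D) + c * (K * (S + 1))) * (R + 2) ≤ _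
      have h14 : (S + 1 + (b + 1) * (K * D) + c * (K * (S + 1))) * (R + 2) ≤
          (S + 1 + (b + 1) * (K * D) + κ + c * (K * (S + 2))) * (R + 2) := by
        apply Nat.mul_le_mul_right
        have : c * (K * (S + 1)) ≤ c * (K * (S + 2)) := by gcongr; omega
        omega
      omega
    · apply key'
      show S + 1 + (b + 1) * (K * D) + K * (3 * c) ^ D * (S + 1) ≤ _
      have h14 : K * (3 * c) ^ D * (S + 1) ≤ K * (3 * c) ^ D * (S + 2) := by gcongr; omega
      omega
    · apply key'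
      show (b + 1) * (K * D) + 1 ≤ _
      omega
    · apply key'
      show (S + 1 + (b + 1) * (K * D) + κ + c * (K * (S + 2))) * (R + 2) ≤ _
      omega
    · apply key'
      show S + 1 + (b + 1) * (K * D) + κ + K * (3 * c) ^ D * (S + 2) ≤ _
      omega
    · apply key'
      show (b + 1) * (K * D) + 1 ≤ _
      omega
    · show d * (R * c) < 2 ^ κ
      refine lt_of_le_of_lt ?_ hcube
      have hdl : d ≤ 4 * (Nat.log 2 x + 1) := by
        have : d * 1 ≤ d * (G + 2) := Nat.mul_le_mul_left _ (by omega)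
        omega
      have hcl : c ≤ 4 * (Nat.log 2 x + 1) := by
        have : c * 1 ≤ c * (K * (S + 2)) :=
          Nat.mul_le_mul_left _ (Nat.mul_pos h4 (by omega))
        omega
      have hRl : R ≤ 4 * (Nat.log 2 x + 1) := by
        have h14 : 1 * (R + 2) ≤
            (S + 1 + (b + 1) * (K * D) + κ + c * (K * (S + 2))) * (R + 2) :=
          Nat.mul_le_mul_right _ (by omega)
        have h15 : G * E * 1 ≤
            G * E * (S + 1 + (b + 1) * (K * D) + κ + c * (K * (S + 2))) :=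
          Nat.mul_le_mul_left _ (by omega)
        have h16 : G * E * (S + 1 + (b + 1) * (K * D) + κ + c * (K * (S + 2))) =
            G * ((S + 1 + (b + 1) * (K * D) + κ + c * (K * (S + 2))) * E) := by ring
        omega
      calc d * (R * c) ≤ 4 * (Nat.log 2 x + 1) *
            (4 * (Nat.log 2 x + 1) * (4 * (Nat.log 2 x + 1))) := by gcongr
        _ = _ := by ring

end Pool.Agent.Helper48.MHS
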